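import Mathlib

set_option autoImplicit false

namespace Pool.Agent.Results.MP_459b8e_gt.Nested

open Matrix MeasureTheory Set

/-- Klein model: points of hyperbolic 3-space are the points of the open unit ball. -/
def H3 : Set (Fin 3 → ℝ) := {x | x ⬝ᵥ x < 1}

/-- Hyperbolic distance in the Klein model. -/
noncomputable def hdist (x y : Fin 3 → ℝ) : ℝ :=
  Real.arcosh ((1 - x ⬝ᵥ y) / √((1 - x ⬝ᵥ x) * (1 - y ⬝ᵥ y)))

/-- Hyperbolic volume in the Klein model. -/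
noncomputable def hvol (S : Set (Fin 3 → ℝ)) : ENNReal :=
  ∫⁻ x in S, ENNReal.ofReal (1 / (1 - x ⬝ᵥ x) ^ 2)

/-- A closed halfspace a.x ≤ b of hyperbolic space; (a, b) is its outward spacelike normal. -/
structure Half where
  a : Fin 3 → ℝ
  b : ℝ
  spacelike : b ^ 2 < a ⬝ᵥ a

def Half.set (A : Half) : Set (Fin 3 → ℝ) := {x ∈ H3 | A.a ⬝ᵥ x ≤ A.b}

def Half.plane (A : Half) : Set (Fin 3 → ℝ) := {x ∈ H3 | A.a ⬝ᵥ x = A.b}

open Classical in
/-- Measure of the dihedral angle: the inner angle of the wedge if the planes meet (minus the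
Lorentzian product of the unit normals is its cosine), and otherwise minus the distance between
the planes (which is 0 for parallel planes). -/
noncomputable def meas (A B : Half) : ℝ :=
  if (A.plane ∩ B.plane).Nonempty then
    Real.arccos (-((A.a ⬝ᵥ B.a - A.b * B.b) / √((A.a ⬝ᵥ A.a - A.b ^ 2) * (B.a ⬝ᵥ B.a - B.b ^ 2))))
  else -sInf {d | ∃ x ∈ A.plane, ∃ y ∈ B.plane, d = hdist x y}

noncomputable def mk (x y z b : ℝ) (h : b ^ 2 < x * x + y * y + z * z) : Half :=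
  ⟨![x, y, z], b, by simpa [dotProduct, Fin.sum_univ_three] using h⟩

noncomputable def HH (A : Half) : Fin 5 → Half :=
  ![mk (-1) 0 0 0 (by norm_num), mk 0 (-1) 0 0 (by norm_num), mk 0 0 (-1) 0 (by norm_num),
    A, mk 1 1 1 (3 / 4) (by norm_num)]

noncomputable def HP : Fin 5 → Half := HH (mk 1 1 1 (1 / 16) (by norm_num))

noncomputable def HQ : Fin 5 → Half := HH (mk (-1) (-1) 0 0 (by norm_num))

def T (c : ℝ) : Set (Fin 3 → ℝ) := {x | 0 ≤ x 0 ∧ 0 ≤ x 1 ∧ 0 ≤ x 2 ∧ x 0 + x 1 + x 2 ≤ c}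

theorem eP : ⋂ i, (HP i).set = T (1 / 16) := by
  ext x
  simp only [mem_iInter, Fin.forall_fin_succ, HP, HH, T, Half.set, H3, mk, dotProduct, Fin.sum_univ_three,
    mem_ofPred_eq, cons_val_zero, cons_val_one, cons_val_succ, cons_val, IsEmpty.forall_iff]
  constructor
  · rintro ⟨h1, h2, h3, h4, -⟩
    exact ⟨by linarith [h1.2], by linarith [h2.2], by linarith [h3.2], by linarith [h4.2]⟩
  · rintro ⟨h1, h2, h3, h4⟩
    have : x 0 * x 0 + x 1 * x 1 + x 2 * x 2 < 1 := by nlinarith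
    refine ⟨⟨this, ?_⟩, ⟨this, ?_⟩, ⟨this, ?_⟩, ⟨this, ?_⟩, ⟨this, ?_⟩, trivial⟩ <;> linarith

theorem eQ : ⋂ i, (HQ i).set = T (3 / 4) := by
  ext x
  simp only [mem_iInter, Fin.forall_fin_succ, HQ, HH, T, Half.set, H3, mk, dotProduct, Fin.sum_univ_three,
    mem_ofPred_eq, cons_val_zero, cons_val_one, cons_val_succ, cons_val, IsEmpty.forall_iff]
  constructor
  · rintro ⟨h1, h2, h3, -, h4, -⟩
    exact ⟨by linarith [h1.2], by linarith [h2.2], by linarith [h3.2], by linarith [h4.2]⟩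
  · rintro ⟨h1, h2, h3, h4⟩
    have : x 0 * x 0 + x 1 * x 1 + x 2 * x 2 < 1 := by nlinarith
    refine ⟨⟨this, ?_⟩, ⟨this, ?_⟩, ⟨this, ?_⟩, ⟨this, ?_⟩, ⟨this, ?_⟩, trivial⟩ <;> linarith

theorem sub1 (c : ℝ) : T c ⊆ Icc 0 fun _ => c := fun x ⟨h1, h2, h3, h4⟩ =>
  ⟨fun i => by fin_cases i <;> assumption, fun i => by fin_cases i <;> simp <;> linarith⟩

theorem sub2 (c : ℝ) : Icc 0 (fun _ => c / 3) ⊆ T c := fun x ⟨h1, h2⟩ =>
  ⟨h1 0, h1 1, h1 2, by linarith [h2 0, h2 1, h2 2]⟩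

theorem good (c : ℝ) (hc : 0 < c) : IsCompact (T c) ∧ (interior (T c)).Nonempty := by
  refine ⟨isCompact_Icc.of_isClosed_subset ?_ (sub1 c), ?_⟩
  · simp only [T, ofPred_and]
    exact (isClosed_le (by fun_prop) (by fun_prop)).inter ((isClosed_le (by fun_prop) (by fun_prop)).inter
      ((isClosed_le (by fun_prop) (by fun_prop)).inter (isClosed_le (by fun_prop) (by fun_prop))))
  · exact ⟨fun _ => c / 6, mem_interior_iff_mem_nhds.2 (Filter.mem_of_superset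
      (pi_Icc_mem_nhds (fun _ => by show 0 < c / 6; linarith) fun _ => by linarith) (sub2 c))⟩

theorem vol : hvol (T (1 / 16)) < hvol (T (3 / 4)) := by
  have h1 : hvol (T (1 / 16)) ≤ 2 * ENNReal.ofReal (1 / 16) ^ 3 := by
    refine (lintegral_mono_set (sub1 _)).trans ((setLIntegral_mono' measurableSet_Icc
      (g := fun _ => 2) fun x hx => ?_).trans ?_)
    · rw [← ENNReal.ofReal_ofNat]
      refine ENNReal.ofReal_le_ofReal ?_
      have : x ⬝ᵥ x ≤ 1 / 16 := by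
        simp only [dotProduct, Fin.sum_univ_three]
        have a := fun i => mul_le_mul (hx.2 i) (hx.2 i) (hx.1 i) (by norm_num)
        linarith [a 0, a 1, a 2]
      rw [div_le_iff₀ (by nlinarith)]
      nlinarith
    · rw [setLIntegral_const, Real.volume_Icc_pi]; simp
  have h2 : ENNReal.ofReal (1 / 4) ^ 3 ≤ hvol (T (3 / 4)) := by
    refine le_trans ?_ (lintegral_mono_set (sub2 _))
    refine le_trans ?_ (setLIntegral_mono' measurableSet_Icc (f := fun _ => 1) fun x hx => ?_)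
    · rw [setLIntegral_const, Real.volume_Icc_pi]; norm_num
    · rw [← ENNReal.ofReal_one]
      refine ENNReal.ofReal_le_ofReal ?_
      have h0 : 0 ≤ x ⬝ᵥ x := Finset.sum_nonneg fun i _ => mul_self_nonneg _
      have : x ⬝ᵥ x ≤ 1 / 2 := by
        simp only [dotProduct, Fin.sum_univ_three]
        have a := fun i => mul_le_mul (hx.2 i) (hx.2 i) (hx.1 i) (by norm_num)
        linarith [a 0, a 1, a 2]
      rw [le_div_iff₀ (by nlinarith)]
      nlinarith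
  refine h1.trans_lt (lt_of_lt_of_le ?_ h2)
  rw [← ENNReal.ofReal_pow (by norm_num), ← ENNReal.ofReal_pow (by norm_num), ← ENNReal.ofReal_ofNat,
    ← ENNReal.ofReal_mul (by norm_num), ENNReal.ofReal_lt_ofReal_iff (by norm_num)]
  norm_num

theorem cmp {A B A' B' : Half} (x : Fin 3 → ℝ) (h1 : x ∈ A'.plane ∩ B'.plane)
    (h2 : ¬ (A.plane ∩ B.plane).Nonempty ∨ (A.a ⬝ᵥ B.a - A.b * B.b ≤ 0 ∧ 0 ≤ A'.a ⬝ᵥ B'.a - A'.b * B'.b)) :
    meas A B ≤ meas A' B' := by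
  unfold meas
  rw [if_pos (show (A'.plane ∩ B'.plane).Nonempty from ⟨x, h1⟩)]
  split_ifs with h
  · obtain ⟨h3, h4⟩ := h2.resolve_left (not_not.2 h)
    exact Real.arccos_le_arccos (neg_le_neg ((div_nonpos_of_nonpos_of_nonneg h3 (Real.sqrt_nonneg _)).trans
      (div_nonneg h4 (Real.sqrt_nonneg _))))
  · refine le_trans (neg_nonpos.2 (Real.sInf_nonneg ?_)) (Real.arccos_nonneg _)
    rintro _ ⟨x, hx, y, hy, rfl⟩
    have a1 : x ⬝ᵥ x < 1 := hx.1
    have a2 : y ⬝ᵥ y < 1 := hy.1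
    refine Real.arcosh_nonneg ((one_le_div (Real.sqrt_pos.2 (mul_pos (by linarith) (by linarith)))).2 ?_)
    simp only [dotProduct, Fin.sum_univ_three] at *
    refine Real.sqrt_le_iff.2 ⟨by nlinarith [sq_nonneg (x 0 - y 0), sq_nonneg (x 1 - y 1), sq_nonneg (x 2 - y 2)], ?_⟩
    set s := x 0 * x 0 + x 1 * x 1 + x 2 * x 2 with hs
    set t := y 0 * y 0 + y 1 * y 1 + y 2 * y 2 with ht
    set u := x 0 * y 0 + x 1 * y 1 + x 2 * y 2 with hu
    have b1 : 2 * u ≤ s + t := by nlinarith [sq_nonneg (x 0 - y 0), sq_nonneg (x 1 - y 1), sq_nonneg (x 2 - y 2)]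
    clear_value s t u
    nlinarith [sq_nonneg (s - t), mul_nonneg (sub_nonneg.2 b1) (by linarith : 0 ≤ 4 - s - t - 2 * u)]

theorem mem (x y z b : ℝ) (h : b ^ 2 < x * x + y * y + z * z) (u v w : ℝ) :
    ![u, v, w] ∈ (mk x y z b h).plane ↔ u * u + v * v + w * w < 1 ∧ x * u + y * v + z * w = b := by
  simp [mk, Half.plane, H3, dotProduct, Fin.sum_univ_three]

theorem a1 (i j : Fin 5) : (![![0, 1/8, 1/8], ![1/8, 0, 1/8], ![1/8, 1/8, 0], ![1/48, 1/48, 1/48],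
    ![1/4, 1/4, 1/4]] : Fin 5 → Fin 3 → ℝ) i ∈ (HP j).plane ↔ i = j := by
  fin_cases i <;> fin_cases j <;> refine (mem _ _ _ _ (by norm_num) _ _ _).trans ?_ <;> norm_num [Fin.ext_iff]

theorem a2 (i j : Fin 5) : (![![0, 1/8, 1/8], ![1/8, 0, 1/8], ![1/8, 1/8, 0], ![1/8, -1/8, 1/8],
    ![1/4, 1/4, 1/4]] : Fin 5 → Fin 3 → ℝ) i ∈ (HQ j).plane ↔ i = j := by
  fin_cases i <;> fin_cases j <;> refine (mem _ _ _ _ (by norm_num) _ _ _).trans ?_ <;> norm_num [Fin.ext_iff]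

theorem a (i : Fin 5) (hi : i < 3) : meas (HP i) (HP 3) ≤ meas (HQ i) (HQ 3) := by
  have : i = 0 ∨ i = 1 ∨ i = 2 := by omega
  refine cmp 0 ?_ (Or.inr ?_) <;> rcases this with rfl | rfl | rfl <;>
    simp [HP, HQ, HH, mk, Half.plane, H3, dotProduct, Fin.sum_univ_three]

theorem b : meas (HP 3) (HP 4) ≤ meas (HQ 3) (HQ 4) := by
  refine cmp ![0, 0, 3 / 4] ⟨(mem _ _ _ _ (by norm_num) _ _ _).2 (by norm_num), (mem _ _ _ _ (by norm_num) _ _ _).2 (by norm_num)⟩ (Or.inl ?_)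
  rintro ⟨x, h1, h2⟩
  have h3 : ![1, 1, 1] ⬝ᵥ x = 1 / 16 := h1.2
  have h4 : ![1, 1, 1] ⬝ᵥ x = 3 / 4 := h2.2
  have := h3.symm.trans h4
  norm_num at this

theorem e (A B : Half) (i : Fin 5) (hi : i ≠ 3) : HH A i = HH B i := by
  fin_cases i
  exacts [rfl, rfl, rfl, absurd rfl hi, rfl]

theorem result : ∃ (N : ℕ) (P Q : Fin N → Half),
    IsCompact (⋂ i, (P i).set) ∧ (interior (⋂ i, (P i).set)).Nonempty ∧
    IsCompact (⋂ i, (Q i).set) ∧ (interior (⋂ i, (Q i).set)).Nonempty ∧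
    (∀ i j, i ≠ j → (P i).plane ≠ (P j).plane ∧ (Q i).plane ≠ (Q j).plane) ∧
    (∀ i j, i < j → meas (P i) (P j) ≤ meas (Q i) (Q j)) ∧
    hvol (⋂ i, (P i).set) < hvol (⋂ i, (Q i).set) := by
  refine ⟨5, HP, HQ, ?_⟩
  rw [eP, eQ]
  refine ⟨(good _ (by norm_num)).1, (good _ (by norm_num)).2, (good _ (by norm_num)).1,
    (good _ (by norm_num)).2, ?_, ?_, vol⟩
  · have w : ∀ (H : Fin 5 → Half) (x : Fin 5 → Fin 3 → ℝ),
        (∀ i j, x i ∈ (H j).plane ↔ i = j) → ∀ i j, i ≠ j → (H i).plane ≠ (H j).plane :=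
      fun H x h i j hij e => hij ((h i j).1 (e ▸ (h i i).2 rfl))
    exact fun i j h => ⟨w HP _ a1 i j h, w HQ _ a2 i j h⟩
  · intro i j h
    by_cases hj : j = 3
    · subst hj; exact a i h
    by_cases hi : i = 3
    · subst hi
      obtain rfl : j = 4 := by omega
      exact b
    exact le_of_eq (congrArg₂ meas (e _ _ i hi) (e _ _ j hj))

end Pool.Agent.Results.MP_459b8e_gt.Nested
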